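import Mathlib
import Pool.Agent.helper76.BQ.TGood

/-! # Project bq, module T3d: law of the partial inversion -/

open Matrix Complex

namespace Pool.Agent.helper76.BQ

/-- the matrix of the partial inversion -/
def T3d_M {g : ℕ} (k : Fin g) : Matrix (Fin g ⊕ Fin g) (Fin g ⊕ Fin g) ℤ :=
  fromBlocks (1 - single k k 1) (-(single k k 1)) (single k k 1) (1 - single k k 1)

theorem T3d_isSp {g : ℕ} (k : Fin g) : IsSp (T3d_M k) := by
  unfold IsSp T3d_M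
  simp only [toBlocks_fromBlocks₁₁, toBlocks_fromBlocks₁₂, toBlocks_fromBlocks₂₁,
    toBlocks_fromBlocks₂₂, transpose_sub, transpose_one, transpose_single, transpose_neg]
  refine ⟨?_, ?_, ?_⟩
  · simp only [sub_mul, mul_sub, one_mul, mul_one, mul_neg, single_mul_single_same]
    abel
  · simp only [sub_mul, mul_sub, one_mul, mul_one, single_mul_single_same]
  · simp only [sub_mul, mul_sub, one_mul, mul_one, neg_mul, mul_neg, single_mul_single_same]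
    abel

/-- the vector of the rank one perturbation -/
noncomputable def T3d_v {g : ℕ} (k : Fin g) (Z : Matrix (Fin g) (Fin g) ℂ) : Fin g → ℂ :=
  fun j => I * Z k j - (Pi.single k 1 : Fin g → ℂ) j

theorem T3d_toC_E {g : ℕ} (k : Fin g) : toC (single k k (1 : ℤ)) = single k k (1 : ℂ) := by
  ext i j
  simp [toC, single, Matrix.of_apply]

theorem T3d_toC_1E {g : ℕ} (k : Fin g) :
    toC (1 - single k k (1 : ℤ)) = (1 - single k k (1 : ℂ) : Matrix (Fin g) (Fin g) ℂ) := by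
  ext i j
  simp only [toC, Matrix.map_apply, Matrix.sub_apply, Matrix.one_apply, single, Matrix.of_apply]
  split_ifs <;> simp

theorem T3d_toC_nE {g : ℕ} (k : Fin g) :
    toC (-(single k k (1 : ℤ))) = (-(single k k (1 : ℂ)) : Matrix (Fin g) (Fin g) ℂ) := by
  ext i j
  simp only [toC, Matrix.map_apply, Matrix.neg_apply, single, Matrix.of_apply]
  split_ifs <;> simp

theorem T3d_E_mul {g : ℕ} (k : Fin g) (Z : Matrix (Fin g) (Fin g) ℂ) :
    single k k (1 : ℂ) * Z = vecMulVec (Pi.single k 1) (Z k) := by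
  ext i j
  rw [vecMulVec_apply]
  by_cases h : i = k
  · subst h; simp
  · rw [single_mul_apply_of_ne _ _ _ _ _ h]; simp [h]

theorem T3d_E_eq {g : ℕ} (k : Fin g) :
    single k k (1 : ℂ) = vecMulVec (Pi.single k 1) (Pi.single k 1) := by
  ext i j
  rw [vecMulVec_apply, single]
  simp only [Matrix.of_apply, Pi.single_apply]
  by_cases h : k = i <;> by_cases h' : k = j <;> simp [h, h', eq_comm]

theorem T3d_den {g : ℕ} (k : Fin g) (Z : Matrix (Fin g) (Fin g) ℂ) :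
    den (T3d_M k) Z = 1 + vecMulVec (Pi.single k 1) (T3d_v k Z) := by
  unfold den T3d_M
  rw [toBlocks_fromBlocks₁₁, toBlocks_fromBlocks₁₂, T3d_toC_1E, T3d_toC_nE, neg_mul, T3d_E_mul,
    T3d_E_eq]
  ext i j
  simp only [Matrix.sub_apply, Matrix.add_apply, Matrix.smul_apply, Matrix.neg_apply,
    vecMulVec_apply, smul_eq_mul, T3d_v]
  ring

/-- the inverse of the denominator -/
theorem T3d_den_inv {g : ℕ} (k : Fin g) (Z : Matrix (Fin g) (Fin g) ℂ) (hz : Z k k ≠ 0) :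
    (den (T3d_M k) Z)⁻¹ = 1 - (I * Z k k)⁻¹ • vecMulVec (Pi.single k 1) (T3d_v k Z) := by
  refine Matrix.inv_eq_right_inv ?_
  rw [T3d_den]
  have hv : T3d_v k Z k = I * Z k k - 1 := by simp [T3d_v]
  have hIz : I * Z k k ≠ 0 := mul_ne_zero I_ne_zero hz
  have h1 : vecMulVec (Pi.single k (1 : ℂ)) (T3d_v k Z) * vecMulVec (Pi.single k 1) (T3d_v k Z) =
      (I * Z k k - 1) • vecMulVec (Pi.single k 1) (T3d_v k Z) := by
    rw [vecMulVec_mul_vecMulVec]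
    ext i j
    simp only [vecMulVec_apply, Matrix.smul_apply, smul_eq_mul, dotProduct_single, hv, mul_one]
    simp only [Pi.smul_apply, smul_eq_mul, mul_comm]
    ring
  rw [mul_sub, mul_one, mul_smul_comm, add_mul, one_mul, h1]
  ext i j
  simp only [Matrix.sub_apply, Matrix.add_apply, Matrix.smul_apply, smul_eq_mul]
  field_simp
  ring

theorem T3d_den_det {g : ℕ} (k : Fin g) (Z : Matrix (Fin g) (Fin g) ℂ) :
    (den (T3d_M k) Z).det = I * Z k k := by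
  rw [T3d_den, vecMulVec_eq (Fin 1), det_one_add_replicateCol_mul_replicateRow]
  simp [T3d_v]

theorem T3d_qf {g : ℕ} (Z : Matrix (Fin g) (Fin g) ℂ) (x : Fin g → ℂ) :
    qf Z x = x ⬝ᵥ (Z *ᵥ x) := by
  unfold qf
  simp only [dotProduct, mulVec, Finset.mul_sum]
  refine Finset.sum_congr rfl fun i _ => Finset.sum_congr rfl fun j _ => ?_
  ring

theorem T3d_mulVec_single {g : ℕ} (k : Fin g) (Z : Matrix (Fin g) (Fin g) ℂ) (t : ℂ) (i : Fin g) :
    (Z *ᵥ Pi.single k t) i = Z i k * t := by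
  show Z i ⬝ᵥ Pi.single k t = Z i k * t
  rw [dotProduct_single]

theorem T3d_w {g : ℕ} (k : Fin g) (Z : Matrix (Fin g) (Fin g) ℂ) (hZ : Zᵀ = Z) (x0 : Fin g → ℂ)
    (t : ℂ) : x0 ⬝ᵥ (Z *ᵥ Pi.single k t) = t * (Z k ⬝ᵥ x0) := by
  simp only [dotProduct, T3d_mulVec_single, Finset.mul_sum]
  refine Finset.sum_congr rfl fun j _ => ?_
  have h : Z j k = Z k j := by
    conv_lhs => rw [← hZ]
    rfl
  rw [h]
  ring

theorem T3d_B {g : ℕ} (k : Fin g) (Z : Matrix (Fin g) (Fin g) ℂ) (hZ : Zᵀ = Z) (x0 : Fin g → ℂ)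
    (t : ℂ) : qf Z (x0 + Pi.single k t) = qf Z x0 + 2 * t * (Z k ⬝ᵥ x0) + Z k k * t ^ 2 := by
  rw [T3d_qf, T3d_qf, mulVec_add, dotProduct_add, add_dotProduct, add_dotProduct,
    T3d_w k Z hZ, single_dotProduct, single_dotProduct, T3d_mulVec_single]
  have h : (Z *ᵥ x0) k = Z k ⬝ᵥ x0 := rfl
  rw [h]
  ring

theorem T3d_y {g : ℕ} (k : Fin g) (Z : Matrix (Fin g) (Fin g) ℂ) (hz : Z k k ≠ 0)
    (x0 : Fin g → ℂ) (h0 : x0 k = 0) (t : ℂ) :
    (den (T3d_M k) Z)⁻¹ *ᵥ (x0 + Pi.single k t) =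
      x0 + Pi.single k (-((Z k ⬝ᵥ x0) + I * t) / Z k k) := by
  rw [T3d_den_inv k Z hz, sub_mulVec, one_mulVec, smul_mulVec, vecMulVec_mulVec]
  have hv : T3d_v k Z ⬝ᵥ (x0 + Pi.single k t) = I * (Z k ⬝ᵥ x0) + (I * Z k k - 1) * t := by
    have h1 : T3d_v k Z = I • Z k - Pi.single k 1 := by
      funext j
      simp [T3d_v]
    rw [h1, sub_dotProduct, dotProduct_add, dotProduct_add, smul_dotProduct, smul_dotProduct,
      dotProduct_single, single_dotProduct, single_dotProduct, h0]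
    simp
    ring
  rw [hv]
  funext i
  simp only [Pi.add_apply, Pi.sub_apply, Pi.smul_apply, smul_eq_mul, Pi.single_apply]
  by_cases h : i = k
  · subst h
    simp only [if_true]
    simp
    field_simp
    ring_nf
    try simp
    try ring
  · simp [h]

theorem T3d_C {g : ℕ} (k : Fin g) (Z : Matrix (Fin g) (Fin g) ℂ) (hz : Z k k ≠ 0)
    (x0 ξ : Fin g → ℂ) (h0 : x0 k = 0) (t : ℂ) :
    ((den (T3d_M k) Z)⁻¹ᵀ *ᵥ ξ) ⬝ᵥ (x0 + Pi.single k t) =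
      ξ ⬝ᵥ x0 - ξ k * ((Z k ⬝ᵥ x0) + I * t) / Z k k := by
  have h1 : ((den (T3d_M k) Z)⁻¹ᵀ *ᵥ ξ) ⬝ᵥ (x0 + Pi.single k t) =
      ξ ⬝ᵥ ((den (T3d_M k) Z)⁻¹ *ᵥ (x0 + Pi.single k t)) := by
    rw [dotProduct_mulVec, mulVec_transpose]
  rw [h1, T3d_y k Z hz x0 h0, dotProduct_add, dotProduct_single]
  ring

theorem T3d_A {g : ℕ} (k : Fin g) (Z : Matrix (Fin g) (Fin g) ℂ) (hZ : Zᵀ = Z) (hz : Z k k ≠ 0)
    (x0 : Fin g → ℂ) (h0 : x0 k = 0) (t : ℂ) :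
    qf (act (T3d_M k) Z) (x0 + Pi.single k t) =
      qf Z x0 + (t - I * (Z k ⬝ᵥ x0)) ^ 2 / Z k k := by
  have hnum : num (T3d_M k) Z = Z - single k k (1 : ℂ) * Z + I • single k k (1 : ℂ) := by
    unfold num T3d_M
    rw [toBlocks_fromBlocks₂₂, toBlocks_fromBlocks₂₁, T3d_toC_1E, T3d_toC_E, sub_mul, one_mul]
  rw [T3d_qf]
  unfold act
  rw [← mulVec_mulVec, T3d_y k Z hz x0 h0, hnum, add_mulVec, sub_mulVec, smul_mulVec,
    ← mulVec_mulVec]
  set y : Fin g → ℂ := x0 + Pi.single k (-((Z k ⬝ᵥ x0) + I * t) / Z k k) with hy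
  have hE : ∀ u : Fin g → ℂ, single k k (1 : ℂ) *ᵥ u = Pi.single k (u k) := by
    intro u
    rw [T3d_E_eq, vecMulVec_mulVec, single_dotProduct]
    funext i
    simp [Pi.single_apply]
  rw [hE, hE]
  have hyk : y k = -((Z k ⬝ᵥ x0) + I * t) / Z k k := by
    rw [hy]; simp [h0]
  have hx0Zy : x0 ⬝ᵥ (Z *ᵥ y) = qf Z x0 + (-((Z k ⬝ᵥ x0) + I * t) / Z k k) * (Z k ⬝ᵥ x0) := by
    rw [hy, mulVec_add, dotProduct_add, T3d_w k Z hZ, T3d_qf]
  rw [dotProduct_add, dotProduct_sub, dotProduct_smul, add_dotProduct, dotProduct_single,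
    dotProduct_single, single_dotProduct, hx0Zy, hyk]
  simp only [Pi.add_apply, Pi.single_eq_same, h0, zero_add, smul_eq_mul]
  have hI : I ^ 2 = -1 := I_sq
  field_simp
  ring_nf
  rw [hI]
  ring

theorem T3d_ex {g : ℕ} (k : Fin g) (Z : Matrix (Fin g) (Fin g) ℂ) (hz : Z k k ≠ 0)
    (ξ : Fin g → ℂ) : ξ ⬝ᵥ (ex (T3d_M k) Z *ᵥ ξ) = I * ξ k ^ 2 / Z k k := by
  have hb : toC (T3d_M k).toBlocks₁₂ = (-(single k k (1 : ℂ)) : Matrix (Fin g) (Fin g) ℂ) := by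
    unfold T3d_M
    rw [toBlocks_fromBlocks₁₂, T3d_toC_nE]
  have hE : ∀ u : Fin g → ℂ, single k k (1 : ℂ) *ᵥ u = Pi.single k (u k) := by
    intro u
    rw [T3d_E_eq, vecMulVec_mulVec, single_dotProduct]
    funext i
    simp [Pi.single_apply]
  unfold ex
  rw [hb, ← mulVec_mulVec, neg_mulVec, hE, mulVec_neg]
  have h1 := T3d_y k Z hz 0 rfl (ξ k)
  rw [zero_add] at h1
  rw [h1]
  simp only [dotProduct_zero, zero_add, dotProduct_neg, dotProduct_single]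
  ring

/-! ### the analytic part -/

/-- splitting off the coordinate `k` -/
def T3d_e {g : ℕ} (k : Fin g) : (({j : Fin g // j ≠ k} → ℤ) × ℤ) ≃ (Fin g → ℤ) :=
  (Equiv.prodComm _ _).trans (Equiv.funSplitAt k ℤ).symm

theorem T3d_e_k {g : ℕ} (k : Fin g) (n' : {j : Fin g // j ≠ k} → ℤ) (m : ℤ) :
    T3d_e k (n', m) k = m := by
  simp [T3d_e, Equiv.funSplitAt, Equiv.piSplitAt]

theorem T3d_e_ne {g : ℕ} (k : Fin g) (n' : {j : Fin g // j ≠ k} → ℤ) (m : ℤ) (j : Fin g)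
    (h : j ≠ k) : T3d_e k (n', m) j = n' ⟨j, h⟩ := by
  simp [T3d_e, Equiv.funSplitAt, Equiv.piSplitAt, h]

theorem T3d_pt {g : ℕ} (N : ℕ) (k : Fin g) (n' : {j : Fin g // j ≠ k} → ℤ) (m : ℤ) :
    pt N (T3d_e k (n', m)) = pt N (T3d_e k (n', 0)) + Pi.single k ((m : ℂ) / (N : ℂ)) := by
  funext j
  by_cases h : j = k
  · subst h
    simp [pt, T3d_e_k]
  · simp [pt, T3d_e_ne _ _ _ _ h, h]

theorem T3d_pt0 {g : ℕ} (N : ℕ) (k : Fin g) (n' : {j : Fin g // j ≠ k} → ℤ) :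
    pt N (T3d_e k (n', 0)) k = 0 := by
  simp [pt, T3d_e_k]

theorem T3d_red {g : ℕ} (N : ℕ) (k : Fin g) (n' : {j : Fin g // j ≠ k} → ℤ) (m : ℤ) :
    red N (T3d_e k (n', m)) =
      Function.update (red N (T3d_e k (n', 0))) k (m : ZMod (N ^ 2)) := by
  funext j
  by_cases h : j = k
  · subst h
    simp [red, T3d_e_k]
  · simp [red, T3d_e_ne _ _ _ _ h, h]

theorem T3d_exp_val {N : ℕ} (hN : 0 < N) (m : ℤ) (c : ℕ) :
    cexp (2 * (Real.pi : ℂ) * I * ((((m : ZMod (N ^ 2)).val : ℕ) : ℂ) * (c : ℂ)) / (N : ℂ) ^ 2) =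
      cexp (2 * (Real.pi : ℂ) * I * ((m : ℂ) * (c : ℂ)) / (N : ℂ) ^ 2) := by
  have : NeZero (N ^ 2) := ⟨by positivity⟩
  have h1 : (((m : ZMod (N ^ 2)).val : ℕ) : ℤ) = m % ((N ^ 2 : ℕ) : ℤ) := ZMod.val_intCast m
  have h2 : m = ((N ^ 2 : ℕ) : ℤ) * (m / ((N ^ 2 : ℕ) : ℤ)) +
      (((m : ZMod (N ^ 2)).val : ℕ) : ℤ) := by
    rw [h1]
    exact (Int.mul_ediv_add_emod m _).symm
  set q : ℤ := m / ((N ^ 2 : ℕ) : ℤ) with hq
  set v : ℕ := (m : ZMod (N ^ 2)).val with hv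
  have hN' : (N : ℂ) ≠ 0 := by exact_mod_cast hN.ne'
  have h3 : (m : ℂ) = (N : ℂ) ^ 2 * (q : ℂ) + (v : ℂ) := by
    have := congrArg (fun z : ℤ => (z : ℂ)) h2
    push_cast at this
    exact this
  rw [Complex.exp_eq_exp_iff_exists_int]
  refine ⟨-(q * c), ?_⟩
  rw [h3]
  push_cast
  field_simp
  ring

theorem T3d_pft {g N : ℕ} (hN : 0 < N) (k : Fin g) (φ : Sch g N)
    (n' : {j : Fin g // j ≠ k} → ℤ) (m : ℤ) :
    pft N k φ (red N (T3d_e k (n', m))) =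
      (N : ℂ)⁻¹ * ∑ c ∈ Finset.range (N ^ 2),
        φ (Function.update (red N (T3d_e k (n', 0))) k (c : ZMod (N ^ 2))) *
          cexp (2 * (Real.pi : ℂ) * I * ((m : ℂ) * (c : ℂ)) / (N : ℂ) ^ 2) := by
  show (N : ℂ)⁻¹ * ∑ c ∈ (Finset.range (N ^ 2)),
      φ (Function.update (red N (T3d_e k (n', m))) k (c : ZMod (N ^ 2))) *
      cexp (2 * (Real.pi : ℂ) * I * ((((red N (T3d_e k (n', m))) k).val : ℂ) * (c : ℂ)) /
        (N : ℂ) ^ 2) = _
  congr 1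
  refine Finset.sum_congr rfl fun c _ => ?_
  rw [T3d_red, Function.update_idem, Function.update_self, T3d_exp_val hN]

theorem T3d_re {g : ℕ} {Z : Matrix (Fin g) (Fin g) ℂ} (hZ : IsSiegel Z) (k : Fin g) :
    0 < (Z k k).re := by
  have h := hZ.2 (Pi.single k 1) (by
    intro h0
    have := congrFun h0 k
    simp at this)
  have h1 : ∑ i, ∑ j, (Z i j).re * (Pi.single k 1 : Fin g → ℝ) i * (Pi.single k 1 : Fin g → ℝ) j =
      (Z k k).re := by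
    rw [Finset.sum_eq_single k]
    · rw [Finset.sum_eq_single k]
      · simp
      · intro j _ hj
        simp [hj]
      · intro h; exact absurd (Finset.mem_univ _) h
    · intro i _ hi
      refine Finset.sum_eq_zero fun j _ => ?_
      simp [hi]
    · intro h; exact absurd (Finset.mem_univ _) h
  rw [h1] at h
  exact h

theorem law_J_of {g : ℕ} {N : ℕ} (hN : 0 < N) (k : Fin g)
    (hT1b : ∀ {Z : Matrix (Fin g) (Fin g) ℂ}, IsSiegel Z → ∀ (φ : Sch g N) (ξ : Fin g → ℂ)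
      (k : ℕ), Summable (fun n : Fin g → ℤ => ‖φ (red N n)‖ * (1 + ∑ i, |(n i : ℝ)|) ^ k *
        ‖cexp (-(Real.pi : ℂ) * qf Z (pt N n) +
          2 * (Real.pi : ℂ) * I * ∑ i, ξ i * pt N n i)‖))
    (hT2c : ∀ {M : Matrix (Fin g ⊕ Fin g) (Fin g ⊕ Fin g) ℤ}, IsSp M →
      ∀ {Z : Matrix (Fin g) (Fin g) ℂ}, IsSiegel Z → IsSiegel (act M Z))
    (hT3c : ∀ (φ : ZMod (N ^ 2) → ℂ) (z ζ : ℂ), 0 < z.re →
      ∑' n : ℤ, φ (n : ZMod (N ^ 2)) *
          cexp (-(Real.pi : ℂ) * z * ((n : ℂ) / N) ^ 2 + 2 * (Real.pi : ℂ) * I * ζ * ((n : ℂ) / N)) =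
        z ^ (-(1 / 2 : ℂ)) * cexp (-(Real.pi : ℂ) * ζ ^ 2 / z) *
          ∑' m : ℤ, ((N : ℂ)⁻¹ * ∑ c ∈ Finset.range (N ^ 2), φ (c : ZMod (N ^ 2)) *
              cexp (2 * (Real.pi : ℂ) * I * ((m : ℂ) * (c : ℂ)) / (N : ℂ) ^ 2)) *
            cexp (-(Real.pi : ℂ) * ((m : ℂ) / N) ^ 2 / z +
              2 * (Real.pi : ℂ) * ((m : ℂ) / N) * ζ / z)) :
    Law N (fromBlocks (1 - single k k 1) (-(single k k 1)) (single k k 1) (1 - single k k 1))
      (pft N k) (fun Z : Matrix (Fin g) (Fin g) ℂ => (Z k k) ^ (1 / 2 : ℂ)) := by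
  show Law N (T3d_M k) (pft N k) (fun Z : Matrix (Fin g) (Fin g) ℂ => (Z k k) ^ (1 / 2 : ℂ))
  refine ⟨?_, ?_, ?_⟩
  · refine ContinuousOn.cpow ?_ continuousOn_const ?_
    · exact (continuous_apply_apply k k).continuousOn
    · intro Z hZ
      exact Or.inl (T3d_re hZ k)
  · intro Z hZ
    rw [T3d_den_det, ← Complex.cpow_nat_mul, mul_pow]
    have hI : I ^ 4 = 1 := I_pow_four
    rw [hI, one_mul]
    have h1 : ((8 : ℕ) : ℂ) * (1 / 2 : ℂ) = ((4 : ℕ) : ℂ) := by norm_num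
    rw [h1, Complex.cpow_natCast]
  · intro Z hZ ξ φ
    have hre := T3d_re hZ k
    have hz : Z k k ≠ 0 := by
      intro h
      rw [h] at hre
      simp at hre
    have hZs : IsSiegel (act (T3d_M k) Z) := hT2c (T3d_isSp k) hZ
    set η : Fin g → ℂ := (den (T3d_M k) Z)⁻¹ᵀ *ᵥ ξ with hη
    -- summability
    have hsum : ∀ {W : Matrix (Fin g) (Fin g) ℂ}, IsSiegel W → ∀ (ψ : Sch g N) (θ : Fin g → ℂ),
        Summable (fun n : Fin g → ℤ => ψ (red N n) *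
          cexp (-(Real.pi : ℂ) * qf W (pt N n) +
            2 * (Real.pi : ℂ) * I * ∑ i, θ i * pt N n i)) := by
      intro W hW ψ θ
      refine Summable.of_norm ?_
      refine (hT1b hW ψ θ 0).congr fun n => ?_
      rw [pow_zero, mul_one, norm_mul]
    have hsplit : ∀ {W : Matrix (Fin g) (Fin g) ℂ}, IsSiegel W → ∀ (ψ : Sch g N)
        (θ : Fin g → ℂ), Th N ψ W θ = ∑' n' : {j : Fin g // j ≠ k} → ℤ, ∑' m : ℤ,
          ψ (red N (T3d_e k (n', m))) * cexp (-(Real.pi : ℂ) * qf W (pt N (T3d_e k (n', m))) +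
            2 * (Real.pi : ℂ) * I * ∑ i, θ i * pt N (T3d_e k (n', m)) i) := by
      intro W hW ψ θ
      have h1 := hsum hW ψ θ
      have h2 := (T3d_e k).summable_iff.2 h1
      unfold Th
      rw [← (T3d_e k).tsum_eq]
      exact Summable.tsum_prod h2
    rw [hsplit hZs, hsplit hZ, ← tsum_mul_left]
    refine tsum_congr fun n' => ?_
    set x0 : Fin g → ℂ := pt N (T3d_e k (n', 0)) with hx0
    have hx0k : x0 k = 0 := T3d_pt0 N k n'
    set w : ℂ := Z k ⬝ᵥ x0 with hw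
    set φ' : ZMod (N ^ 2) → ℂ :=
      fun c => φ (Function.update (red N (T3d_e k (n', 0))) k c) with hφ'
    have hL : ∀ m : ℤ, pft N k φ (red N (T3d_e k (n', m))) *
        cexp (-(Real.pi : ℂ) * qf (act (T3d_M k) Z) (pt N (T3d_e k (n', m))) +
          2 * (Real.pi : ℂ) * I * ∑ i, η i * pt N (T3d_e k (n', m)) i) =
        cexp ((Real.pi : ℂ) * ξ k ^ 2 / Z k k + (-(Real.pi : ℂ) * qf Z x0 +
          2 * (Real.pi : ℂ) * I * (ξ ⬝ᵥ x0)) - (Real.pi : ℂ) * (ξ k + I * w) ^ 2 / Z k k) *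
        (((N : ℂ)⁻¹ * ∑ c ∈ Finset.range (N ^ 2), φ' (c : ZMod (N ^ 2)) *
              cexp (2 * (Real.pi : ℂ) * I * ((m : ℂ) * (c : ℂ)) / (N : ℂ) ^ 2)) *
            cexp (-(Real.pi : ℂ) * ((m : ℂ) / N) ^ 2 / Z k k +
              2 * (Real.pi : ℂ) * ((m : ℂ) / N) * (ξ k + I * w) / Z k k)) := by
      intro m
      have h1 : ∑ i, η i * pt N (T3d_e k (n', m)) i = η ⬝ᵥ pt N (T3d_e k (n', m)) := rfl
      rw [h1, T3d_pft hN, T3d_pt N k n' m, ← hx0, T3d_A k Z hZ.1 hz x0 hx0k, hη,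
        T3d_C k Z hz x0 ξ hx0k, ← hw, mul_left_comm, ← Complex.exp_add]
      congr 2
      have hI : I ^ 2 = -1 := I_sq
      generalize (m : ℂ) / (N : ℂ) = t
      field_simp
      ring_nf
      try rw [hI]
      try ring
    have hR : ∀ m : ℤ, φ (red N (T3d_e k (n', m))) *
        cexp (-(Real.pi : ℂ) * qf Z (pt N (T3d_e k (n', m))) +
          2 * (Real.pi : ℂ) * I * ∑ i, ξ i * pt N (T3d_e k (n', m)) i) =
        cexp (-(Real.pi : ℂ) * qf Z x0 + 2 * (Real.pi : ℂ) * I * (ξ ⬝ᵥ x0)) *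
        (φ' (m : ZMod (N ^ 2)) *
          cexp (-(Real.pi : ℂ) * Z k k * ((m : ℂ) / N) ^ 2 +
            2 * (Real.pi : ℂ) * I * (ξ k + I * w) * ((m : ℂ) / N))) := by
      intro m
      have h1 : ∑ i, ξ i * pt N (T3d_e k (n', m)) i = ξ ⬝ᵥ pt N (T3d_e k (n', m)) := rfl
      rw [h1, T3d_red N k n' m, T3d_pt N k n' m, ← hx0, T3d_B k Z hZ.1, dotProduct_add,
        dotProduct_single, ← hw, mul_left_comm, ← Complex.exp_add]
      congr 2
      have hI : I ^ 2 = -1 := I_sq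
      ring_nf
      try rw [hI]
      try ring
    simp_rw [hL, hR]
    rw [tsum_mul_left, tsum_mul_left, hT3c φ' (Z k k) (ξ k + I * w) hre, T3d_ex k Z hz ξ]
    have hzz : (Z k k) ^ (1 / 2 : ℂ) * (Z k k) ^ (-(1 / 2 : ℂ)) = 1 := by
      rw [← Complex.cpow_add _ _ hz]
      simp
    set S : ℂ := ∑' m : ℤ, ((N : ℂ)⁻¹ * ∑ c ∈ Finset.range (N ^ 2), φ' (c : ZMod (N ^ 2)) *
              cexp (2 * (Real.pi : ℂ) * I * ((m : ℂ) * (c : ℂ)) / (N : ℂ) ^ 2)) *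
            cexp (-(Real.pi : ℂ) * ((m : ℂ) / N) ^ 2 / Z k k +
              2 * (Real.pi : ℂ) * ((m : ℂ) / N) * (ξ k + I * w) / Z k k) with hS
    have hexp : cexp ((Real.pi : ℂ) * ξ k ^ 2 / Z k k + (-(Real.pi : ℂ) * qf Z x0 +
          2 * (Real.pi : ℂ) * I * (ξ ⬝ᵥ x0)) - (Real.pi : ℂ) * (ξ k + I * w) ^ 2 / Z k k) =
        cexp (-((Real.pi : ℂ) * I * (I * ξ k ^ 2 / Z k k))) *
          cexp (-(Real.pi : ℂ) * qf Z x0 + 2 * (Real.pi : ℂ) * I * (ξ ⬝ᵥ x0)) *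
          cexp (-(Real.pi : ℂ) * (ξ k + I * w) ^ 2 / Z k k) := by
      rw [← Complex.exp_add, ← Complex.exp_add]
      congr 1
      have hI : I ^ 2 = -1 := I_sq
      have h2 : I * (I * ξ k ^ 2 / Z k k) = -(ξ k ^ 2 / Z k k) := by
        rw [← mul_div_assoc, ← mul_assoc, ← pow_two, hI]
        ring
      rw [mul_assoc (Real.pi : ℂ) I, h2]
      ring
    rw [hexp]
    calc cexp (-((Real.pi : ℂ) * I * (I * ξ k ^ 2 / Z k k))) *
          cexp (-(Real.pi : ℂ) * qf Z x0 + 2 * (Real.pi : ℂ) * I * (ξ ⬝ᵥ x0)) *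
          cexp (-(Real.pi : ℂ) * (ξ k + I * w) ^ 2 / Z k k) * S
        = ((Z k k) ^ (1 / 2 : ℂ) * (Z k k) ^ (-(1 / 2 : ℂ))) *
          (cexp (-((Real.pi : ℂ) * I * (I * ξ k ^ 2 / Z k k))) *
          cexp (-(Real.pi : ℂ) * qf Z x0 + 2 * (Real.pi : ℂ) * I * (ξ ⬝ᵥ x0)) *
          cexp (-(Real.pi : ℂ) * (ξ k + I * w) ^ 2 / Z k k) * S) := by rw [hzz, one_mul]
      _ = _ := by ring

end Pool.Agent.helper76.BQ
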