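import Pool.Agent.helper81.BQ.T3d
import Pool.Agent.helper76.BQ.T1
import Pool.Agent.helper82.BQ.T2a
import Pool.Agent.helper99.BQ.T3c

/-! # Project bq, module T3d (final): law of the partial inversion -/

open Matrix Complex

namespace Pool.Agent.helper76.BQ

/-- T3d: law of the partial inversion, `J Z = sqrt (Z k k)` -/
theorem law_J {g : ℕ} {N : ℕ} (hN : 0 < N) (k : Fin g) :
    Law N (fromBlocks (1 - single k k 1) (-(single k k 1)) (single k k 1) (1 - single k k 1))
      (pft N k) (fun Z : Matrix (Fin g) (Fin g) ℂ => (Z k k) ^ (1 / 2 : ℂ)) :=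
  law_J_of hN k (fun hZ φ ξ k => siegel_summable hN hZ φ ξ k)
    (fun hM _ hZ => act_siegel hM hZ) (fun φ z ζ hz => fe_one hN φ z ζ hz)

end Pool.Agent.helper76.BQ
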